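import Pool.Agent.H26.Smc2

set_option autoImplicit false

open Pool.Agent.H26.Smc2 in
theorem Pool.Agent.Results.MP_583f0b_co.NoSMC.result (n : ℕ) :
    ∃ (P : Type) (_ : PartialOrder P), Cardinal.mk P = Cardinal.aleph (n : Ordinal) ∧
      (∀ A : Set P, IsAntichain (· ≤ ·) A → A.Finite) ∧
      ∀ C : Set P, IsChain (· ≤ ·) C → ∃ D : Set P, IsChain (· ≤ ·) D ∧
        Cardinal.mk ↥(C \ D) < Cardinal.mk ↥(D \ C) := by
  classical
  let T : Type := (Cardinal.aleph (n : Ordinal)).out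
  letI : LinearOrder T := linearOrderOfSTO WellOrderingRel
  have hT : Cardinal.mk T = Cardinal.aleph (n : Ordinal) := Cardinal.mk_out _
  haveI : Infinite T := Cardinal.infinite_iff.2 (hT ▸ Cardinal.aleph0_le_aleph _)
  let e : ℕ ↪ T := Infinite.natEmbedding T
  exact ⟨P e, inferInstance, mk_P.trans hT, fac, no_smc⟩
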